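import Mathlib
import Pool.Agent.H12.Judic

set_option autoImplicit false

namespace Pool.Agent.Results.MP_f151b7_co.SplitGraphs

/-- For every s at least 1 and k = 3s there is a graph with exactly C(k,2) edges such that in every
partition of the vertices into k classes some class meets at most k/3 edges, which is fewer than
2m/(2k-1). -/
theorem result (s : ℕ) (hs : 1 ≤ s) :
    ∃ (n : ℕ) (G : SimpleGraph (Fin n)), G.edgeSet.ncard = (3 * s).choose 2 ∧
      ∀ c : Fin n → Fin (3 * s), ∃ i : Fin (3 * s),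
        {e ∈ G.edgeSet | ∃ v ∈ e, c v = i}.ncard ≤ s ∧
        ({e ∈ G.edgeSet | ∃ v ∈ e, c v = i}.ncard : ℝ) <
          2 * (G.edgeSet.ncard : ℝ) / (2 * ((3 * s : ℕ) : ℝ) - 1) := by
  obtain ⟨r, rfl⟩ : ∃ r, s = r + 1 := ⟨s - 1, by omega⟩
  have h1 := Pool.Agent.H12.Judic.edges (r + 1) (4 * r + 3)
  have h2 : (Pool.Agent.H12.Judic.split (r + 1) (4 * r + 3)).edgeSet.ncard =
      (Pool.Agent.H12.Judic.split (r + 1) (4 * r + 3)).edgeFinset.card := by
    rw [← SimpleGraph.coe_edgeFinset, Set.ncard_coe_finset]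
  have h3 : r + 1 + (4 * r + 3) - 1 = 5 * r + 3 := by omega
  rw [h3, ← h2] at h1
  have h4 : 2 * (Pool.Agent.H12.Judic.split (r + 1) (4 * r + 3)).edgeSet.ncard =
      (3 * (r + 1)) * (3 * r + 2) := by rw [h1]; ring
  refine ⟨_, Pool.Agent.H12.Judic.split (r + 1) (4 * r + 3), ?_, ?_⟩
  · rw [Nat.choose_two_right]
    have : 3 * (r + 1) - 1 = 3 * r + 2 := by omega
    rw [this, ← h4]
    omega
  · intro c
    obtain ⟨i, hi⟩ := Pool.Agent.H12.Judic.meets_le (r + 1) (4 * r + 3) (3 * (r + 1)) (by omega) c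
    refine ⟨i, hi, ?_⟩
    have h5 : (2 : ℝ) * ((Pool.Agent.H12.Judic.split (r + 1) (4 * r + 3)).edgeSet.ncard : ℝ) =
        (3 * (r + 1)) * (3 * r + 2) := by exact_mod_cast h4
    have h6 : (_ : ℝ) ≤ ((r + 1 : ℕ) : ℝ) := Nat.cast_le.2 hi
    have h7 : (0 : ℝ) ≤ r := Nat.cast_nonneg r
    rw [h5]
    refine lt_of_le_of_lt h6 ?_
    push_cast
    rw [lt_div_iff₀ (by linarith)]
    nlinarith

end Pool.Agent.Results.MP_f151b7_co.SplitGraphs
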